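import Pool.Agent.H5.CycHeight

set_option autoImplicit false
open Polynomial

namespace Pool.Agent.Results.MP_7b9a49_nt.Cex

open Pool.Agent.H5.CycHeight

/-- height: the largest absolute value of a coefficient -/
noncomputable def H (f : ℤ[X]) : ℕ := f.support.sup fun i => (f.coeff i).natAbs

/-- product of the `Φ_d`, `d ∣ n`, with an odd number of distinct prime factors -/
noncomputable def Podd (n : ℕ) : ℤ[X] :=
  ∏ d ∈ n.divisors with Odd d.primeFactors.card, cyclotomic d ℤ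

/-- product of the `Φ_d`, `d ∣ n`, with an even number of distinct prime factors -/
noncomputable def Peven (n : ℕ) : ℤ[X] :=
  ∏ d ∈ n.divisors with Even d.primeFactors.card, cyclotomic d ℤ

def N1 : List ℕ := [2, 2, 2, 2, 2, 2, 2, 2, 3, 3, 3, 3, 3, 3, 3, 3, 7, 7, 7, 7, 7, 7, 7, 7, 42, 42,
  13, 13, 13, 13, 13, 13, 13, 13, 78, 78, 182, 182, 273, 273, 19, 19, 19, 19, 19, 19, 19, 19, 114,
  114, 266, 266, 399, 399, 494, 494, 741, 741, 1729, 1729]

def D1 : List ℕ := [1, 1, 1, 1, 1, 1, 1, 1, 1, 1, 1, 1, 1, 1, 1, 6, 6, 6, 6, 14, 14, 14, 14, 21,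
  21, 21, 21, 26, 26, 26, 26, 39, 39, 39, 39, 91, 91, 91, 91, 546, 38, 38, 38, 38, 57, 57, 57, 57,
  133, 133, 133, 133, 798, 247, 247, 247, 247, 1482, 3458, 5187]

theorem pf (d : ℕ) (hd : d ∈ Nat.divisors 10374) :
    d.primeFactors = ({2, 3, 7, 13, 19} : Finset ℕ).filter (· ∣ d) := by
  rw [← Nat.primeFactors_filter_dvd_of_dvd (n := 10374) (by norm_num) (Nat.dvd_of_mem_divisors hd)]
  congr 1
  simp [Nat.primeFactors]

theorem H_le {f : ℤ[X]} {M : ℕ} (hf : ∀ i, |f.coeff i| ≤ M) : H f ≤ M :=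
  Finset.sup_le fun i _ => by have := abs_le.1 (hf i); omega

theorem le_H (f : ℤ[X]) (i : ℕ) : (f.coeff i).natAbs ≤ H f := by
  by_cases h0 : f.coeff i = 0
  · simp [h0]
  · exact Finset.le_sup (f := fun i => (f.coeff i).natAbs) (mem_support_iff.2 h0)

set_option maxRecDepth 1000000 in
theorem result : ∃ n : ℕ, n = 2 * 3 * 7 * 13 * 19 ∧ Squarefree n ∧ ∃ f : ℤ[X], f ∣ X ^ n - 1 ∧
    H (Podd n) < H f ∧ H (Peven n) < H f := by
  refine ⟨10374, by norm_num, by rw [Nat.squarefree_iff_nodup_primeFactorsList (by norm_num)]; simp,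
    ∏ d ∈ Nat.divisors 10374 with (d = 1 ∨ Odd (({2, 3, 7, 13, 19} : Finset ℕ).filter
      (· ∣ d)).card), cyclotomic d ℤ, ?_, ?_⟩
  · rw [← prod_cyclotomic_eq_X_pow_sub_one (by norm_num)]
    exact Finset.prod_dvd_prod_of_subset _ _ _ (Finset.filter_subset _ _)
  have e1 : Podd 10374 = ∏ d ∈ Nat.divisors 10374 with Odd (({2, 3, 7, 13, 19} : Finset ℕ).filter
      (· ∣ d)).card, cyclotomic d ℤ :=
    Finset.prod_congr (Finset.filter_congr fun d hd => by rw [pf d hd]) fun _ _ => rfl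
  have e2 : Peven 10374 = ∏ d ∈ Nat.divisors 10374 with Even (({2, 3, 7, 13, 19} : Finset ℕ).filter
      (· ∣ d)).card, cyclotomic d ℤ :=
    Finset.prod_congr (Finset.filter_congr fun d hd => by rw [pf d hd]) fun _ _ => rfl
  have h1 := ok_eq (N := 10374 :: N1) (D := 1 :: D1) (M := 8415683487216) (f := 5188)
    (V := val (10374 :: N1) (1 :: D1) 5188) (by decide +kernel) (by decide)
    (e1 ▸ prod_id 10374 (by norm_num) _ _ _ (by decide) (by decide) (by decide +kernel))
  have h2 := ok_eq (N := 1 :: D1) (D := N1) (M := 8415683487216) (f := 5188)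
    (V := val (1 :: D1) N1 5188) (by decide +kernel) (by decide)
    (e2 ▸ prod_id 10374 (by norm_num) _ _ _ (by decide) (by decide) (by decide +kernel))
  have h3 := ok_eq (N := 10374 :: N1) (D := D1) (M := 9401697462912) (f := 5189)
    (V := val (10374 :: N1) D1 5189) (by decide +kernel) (by decide)
    (prod_id 10374 (by norm_num) (fun d => d = 1 ∨ Odd (({2, 3, 7, 13, 19} : Finset ℕ).filter
      (· ∣ d)).card) _ _ (by decide) (by decide) (by decide +kernel))
  have h4 := le_H (pol 5189 (val (10374 :: N1) D1 5189)) 2590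
  rw [coeff_pol _ _ _ (by norm_num), ← h3.1,
    show val (10374 :: N1) D1 5189 / B ^ 2590 % B = h + 9401697462912 by decide +kernel] at h4
  have h5 := H_le h1.2
  have h6 := H_le h2.2
  omega

end Pool.Agent.Results.MP_7b9a49_nt.Cex
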